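import Pool.Agent.LeoK.UpStmts

/-!
Squad leok, module CEL: the number of quadruples in one dyadic cell.
-/

set_option autoImplicit false

open NumberField Module

namespace Pool.Agent.LeoK.H24

/-- Fibre lemma. -/
theorem fib {X Z : Type} (S : Set Z) (f : Z → X) (T : Set X) (hT : T.Finite) {N1 N2 : ℝ}
    (h1 : (T.ncard : ℝ) ≤ N1) (hN2 : 0 ≤ N2) (hf : ∀ z ∈ S, f z ∈ T)
    (h2 : ∀ x ∈ T, {z | z ∈ S ∧ f z = x}.Finite ∧ ({z | z ∈ S ∧ f z = x}.ncard : ℝ) ≤ N2) :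
    S.Finite ∧ (S.ncard : ℝ) ≤ N1 * N2 := by
  have hsub : S ⊆ ⋃ x ∈ hT.toFinset, {z | z ∈ S ∧ f z = x} := by
    intro z hz
    simp only [Set.Finite.mem_toFinset, Set.mem_iUnion, Set.mem_ofPred_eq, exists_prop]
    exact ⟨f z, hf z hz, hz, rfl⟩
  have hfin : (⋃ x ∈ hT.toFinset, {z | z ∈ S ∧ f z = x}).Finite := by
    refine Set.Finite.biUnion (Finset.finite_toSet _) ?_
    intro x hx
    exact (h2 x (by simpa using hx)).1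
  refine ⟨hfin.subset hsub, ?_⟩
  calc (S.ncard : ℝ) ≤ ((⋃ x ∈ hT.toFinset, {z | z ∈ S ∧ f z = x}).ncard : ℝ) := by
        exact_mod_cast Set.ncard_le_ncard hsub hfin
    _ ≤ ((∑ x ∈ hT.toFinset, {z | z ∈ S ∧ f z = x}.ncard : ℕ) : ℝ) := by
        exact_mod_cast Finset.set_ncard_biUnion_le _ _
    _ = ∑ x ∈ hT.toFinset, ({z | z ∈ S ∧ f z = x}.ncard : ℝ) := by push_cast; rfl
    _ ≤ ∑ _x ∈ hT.toFinset, N2 := Finset.sum_le_sum fun x hx => (h2 x (by simpa using hx)).2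
    _ = (T.ncard : ℝ) * N2 := by
        rw [Finset.sum_const, nsmul_eq_mul, Set.ncard_eq_toFinset_card T hT]
    _ ≤ N1 * N2 := mul_le_mul_of_nonneg_right h1 hN2

theorem le_of_sq {u v : ℝ} (h : u ^ 2 ≤ v ^ 2) (hv : 0 ≤ v) : u ≤ v :=
  (le_abs_self u).trans (by rw [← abs_of_nonneg hv]; exact sq_le_sq.1 h)

theorem abs_le_of_sq {a B : ℝ} (hB : 0 ≤ B) (h : a ^ 2 ≤ B ^ 2) : |a| ≤ B := by
  rw [← abs_of_nonneg hB]
  exact sq_le_sq.1 h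

/-- The inequalities at one place. -/
theorem place {a m P W cF X Y : ℝ} (hcF : 1 ≤ cF) (hX : 0 < X) (hY : 0 < Y)
    (hid : W ^ 2 + a ^ 2 * m = 4 * P ^ 3)
    (hm1 : X ^ 4 ≤ cF * m) (hm2 : m ≤ 2 * cF * X ^ 4)
    (hx1 : Y ^ 2 ≤ cF * (P / Real.sqrt m)) (hx2 : P / Real.sqrt m ≤ 2 * cF * Y ^ 2) :
    0 < m ∧ 0 < P ∧ Y ^ 2 * X ^ 2 ≤ cF ^ 2 * P ∧
      P ≤ 4 * cF ^ 2 * (Y ^ 2 * X ^ 2) ∧ |a| ≤ 16 * cF ^ 4 * (Y ^ 3 * X) := by
  have hc0 : 0 < cF := lt_of_lt_of_le one_pos hcF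
  have hX4 : 0 < X ^ 4 := by positivity
  have hm0 : 0 < m := by
    by_contra h
    push Not at h
    nlinarith
  obtain ⟨r, hr⟩ : ∃ r, r = Real.sqrt m := ⟨_, rfl⟩
  rw [← hr] at hx1 hx2
  have hr0 : 0 < r := by rw [hr]; exact Real.sqrt_pos.2 hm0
  have hrm : r ^ 2 = m := by rw [hr]; exact Real.sq_sqrt hm0.le
  have hr1 : X ^ 2 ≤ cF * r := by
    have h1 : (X ^ 2) ^ 2 ≤ (cF * r) ^ 2 := by
      have h2 : cF * m ≤ cF ^ 2 * m := by nlinarith [mul_pos hc0 hm0]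
      calc (X ^ 2) ^ 2 = X ^ 4 := by ring
        _ ≤ cF * m := hm1
        _ ≤ cF ^ 2 * m := h2
        _ = (cF * r) ^ 2 := by rw [← hrm]; ring
    exact le_of_sq h1 (by positivity)
  have hr2 : r ≤ 2 * cF * X ^ 2 := by
    have h1 : r ^ 2 ≤ (2 * cF * X ^ 2) ^ 2 := by
      rw [hrm]
      refine hm2.trans ?_
      have h2 : (2 * cF * X ^ 2) ^ 2 = 2 * cF * X ^ 4 * (2 * cF) := by ring
      rw [h2]
      have h3 : 0 < 2 * cF * X ^ 4 := by positivity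
      nlinarith
    exact le_of_sq h1 (by positivity)
  obtain ⟨x, hx⟩ : ∃ x, x = P / r := ⟨_, rfl⟩
  rw [← hx] at hx1 hx2
  have hPx : P = x * r := by rw [hx]; field_simp
  have hx0 : 0 < x := by
    by_contra h
    push Not at h
    have : 0 < Y ^ 2 := by positivity
    nlinarith
  have hP0 : 0 < P := by rw [hPx]; positivity
  have h1 : Y ^ 2 * X ^ 2 ≤ cF ^ 2 * P := by
    calc Y ^ 2 * X ^ 2 ≤ (cF * x) * (cF * r) := by gcongr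
      _ = cF ^ 2 * P := by rw [hPx]; ring
  have h2 : P ≤ 4 * cF ^ 2 * (Y ^ 2 * X ^ 2) := by
    calc P = x * r := hPx
      _ ≤ (2 * cF * Y ^ 2) * (2 * cF * X ^ 2) := by gcongr
      _ = 4 * cF ^ 2 * (Y ^ 2 * X ^ 2) := by ring
  refine ⟨hm0, hP0, h1, h2, ?_⟩
  apply abs_le_of_sq (by positivity)
  have h3 : a ^ 2 * m ≤ 4 * P ^ 3 := by nlinarith [sq_nonneg W]
  have h4 : a ^ 2 * X ^ 4 ≤ 256 * cF ^ 7 * Y ^ 6 * X ^ 6 := by
    calc a ^ 2 * X ^ 4 ≤ a ^ 2 * (cF * m) := by gcongr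
      _ = cF * (a ^ 2 * m) := by ring
      _ ≤ cF * (4 * P ^ 3) := by gcongr
      _ ≤ cF * (4 * (4 * cF ^ 2 * (Y ^ 2 * X ^ 2)) ^ 3) := by gcongr
      _ = 256 * cF ^ 7 * Y ^ 6 * X ^ 6 := by ring
  have h5 : a ^ 2 ≤ 256 * cF ^ 7 * Y ^ 6 * X ^ 2 := by
    have h6 : 256 * cF ^ 7 * Y ^ 6 * X ^ 6 = (256 * cF ^ 7 * Y ^ 6 * X ^ 2) * X ^ 4 := by ring
    rw [h6] at h4
    exact le_of_mul_le_mul_right h4 hX4
  refine h5.trans ?_
  have h7 : (16 * cF ^ 4 * (Y ^ 3 * X)) ^ 2 = (256 * cF ^ 7 * Y ^ 6 * X ^ 2) * cF := by ring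
  rw [h7]
  have h8 : 0 < 256 * cF ^ 7 * Y ^ 6 * X ^ 2 := by positivity
  nlinarith

section

variable {k : Type} [Field k] [NumberField k]

theorem map_qM (s : Sg k) (v : Q4 (𝓞 k)) :
    s ((qM v : 𝓞 k) : k) = fM (s (v 0 : k)) (s (v 1 : k)) (s (v 2 : k)) (s (v 3 : k)) := by
  have h4 : s ((algebraMap (𝓞 k) k) 4) = 4 := by rw [map_ofNat, map_ofNat]
  simp only [qM, fM, fP, fQ, fR, map_sub, map_mul, map_pow, h4]

theorem map_qP (s : Sg k) (v : Q4 (𝓞 k)) :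
    s ((qP v : 𝓞 k) : k) = fP (s (v 0 : k)) (s (v 1 : k)) (s (v 2 : k)) := by
  simp [qP, fP]

/-- The bounds at all places for an element of the cell. -/
theorem cell_bounds (hrea : ReaStmt) {cF R X Y : ℝ} (hcF : 1 ≤ cF) (hX : 0 < X) (hY : 0 < Y)
    {v : Q4 (𝓞 k)} (hv : v ∈ cell (k := k) cF R (X ^ 4) (Y ^ 2)) (s : Sg k) :
    0 < fM (s (v 0 : k)) (s (v 1 : k)) (s (v 2 : k)) (s (v 3 : k)) ∧
    0 < fP (s (v 0 : k)) (s (v 1 : k)) (s (v 2 : k)) ∧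
    Y ^ 2 * X ^ 2 ≤ cF ^ 2 * fP (s (v 0 : k)) (s (v 1 : k)) (s (v 2 : k)) ∧
    fP (s (v 0 : k)) (s (v 1 : k)) (s (v 2 : k)) ≤ 4 * cF ^ 2 * (Y ^ 2 * X ^ 2) ∧
    |s (v 0 : k)| ≤ 16 * cF ^ 4 * (Y ^ 3 * X) := by
  obtain ⟨-, -, h3, h4⟩ := hv
  have h3 := h3 s
  have h4 := h4 s
  rw [map_qM] at h3 h4
  rw [map_qP] at h4
  exact place hcF hX hY (hrea.1 _ _ _ _) h3.1 h3.2 h4.1 h4.2

/-- Elements all of whose coordinates are in one of two intervals. -/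
theorem count_d {C1 : ℝ}
    (hbox : ∀ α L : Sg k → ℝ, (∀ s, 0 ≤ L s) →
        {x : 𝓞 k | ∀ s : Sg k, α s ≤ s (x : k) ∧ s (x : k) ≤ α s + L s}.Finite ∧
        ({x : 𝓞 k | ∀ s : Sg k, α s ≤ s (x : k) ∧ s (x : k) ≤ α s + L s}.ncard : ℝ) ≤
          C1 * ∏ s, (L s + 1))
    {l : ℝ} (hl : 0 ≤ l) (α β : Sg k → ℝ) :
    {x : 𝓞 k | ∀ s : Sg k, (α s ≤ s (x : k) ∧ s (x : k) ≤ α s + l) ∨
      (β s ≤ s (x : k) ∧ s (x : k) ≤ β s + l)}.Finite ∧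
    ({x : 𝓞 k | ∀ s : Sg k, (α s ≤ s (x : k) ∧ s (x : k) ≤ α s + l) ∨
      (β s ≤ s (x : k) ∧ s (x : k) ≤ β s + l)}.ncard : ℝ) ≤
      2 ^ Fintype.card (Sg k) * (C1 * (l + 1) ^ Fintype.card (Sg k)) := by
  classical
  obtain ⟨T, hT⟩ : ∃ T : (Sg k → Bool) → Set (𝓞 k), T = fun e =>
      {x : 𝓞 k | ∀ s : Sg k, (if e s then α s else β s) ≤ s (x : k) ∧
        s (x : k) ≤ (if e s then α s else β s) + l} := ⟨_, rfl⟩
  have hTe : ∀ e, (T e).Finite ∧ ((T e).ncard : ℝ) ≤ C1 * (l + 1) ^ Fintype.card (Sg k) := by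
    intro e
    have := hbox (fun s => if e s then α s else β s) (fun _ => l) (fun _ => hl)
    rw [Finset.prod_const, Finset.card_univ] at this
    rw [hT]
    exact this
  have hsub : {x : 𝓞 k | ∀ s : Sg k, (α s ≤ s (x : k) ∧ s (x : k) ≤ α s + l) ∨
      (β s ≤ s (x : k) ∧ s (x : k) ≤ β s + l)} ⊆ ⋃ e ∈ (Finset.univ : Finset (Sg k → Bool)), T e := by
    intro x hx
    simp only [Finset.mem_univ, Set.iUnion_true, Set.mem_iUnion]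
    refine ⟨fun s => decide (α s ≤ s (x : k) ∧ s (x : k) ≤ α s + l), ?_⟩
    rw [hT]
    intro s
    by_cases h : α s ≤ s (x : k) ∧ s (x : k) ≤ α s + l
    · simp only [h, and_self, decide_true, if_true]
    · simp only [h, decide_false]
      exact (hx s).resolve_left h
  have hfin : (⋃ e ∈ (Finset.univ : Finset (Sg k → Bool)), T e).Finite :=
    Set.Finite.biUnion (Finset.finite_toSet _) fun e _ => (hTe e).1
  refine ⟨hfin.subset hsub, ?_⟩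
  calc (({x : 𝓞 k | ∀ s : Sg k, (α s ≤ s (x : k) ∧ s (x : k) ≤ α s + l) ∨
      (β s ≤ s (x : k) ∧ s (x : k) ≤ β s + l)}.ncard : ℕ) : ℝ)
      ≤ ((⋃ e ∈ (Finset.univ : Finset (Sg k → Bool)), T e).ncard : ℝ) := by
        exact_mod_cast Set.ncard_le_ncard hsub hfin
    _ ≤ ((∑ e ∈ (Finset.univ : Finset (Sg k → Bool)), (T e).ncard : ℕ) : ℝ) := by
        exact_mod_cast Finset.set_ncard_biUnion_le _ _
    _ = ∑ e : Sg k → Bool, ((T e).ncard : ℝ) := by push_cast; rfl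
    _ ≤ ∑ _e : Sg k → Bool, C1 * (l + 1) ^ Fintype.card (Sg k) :=
        Finset.sum_le_sum fun e _ => (hTe e).2
    _ = 2 ^ Fintype.card (Sg k) * (C1 * (l + 1) ^ Fintype.card (Sg k)) := by
        rw [Finset.sum_const, nsmul_eq_mul, Finset.card_univ, Fintype.card_fun, Fintype.card_bool]
        push_cast
        ring

theorem rpow_three_half {z : ℝ} (hz : 0 ≤ z) : (z ^ 2) ^ (3 / 2 : ℝ) = z ^ 3 := by
  rw [← Real.rpow_natCast z 2, ← Real.rpow_mul hz, ← Real.rpow_natCast z 3]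
  norm_num

/-- The count in one cell. -/
theorem cel_core (hrea : ReaStmt) {C1 C2 : ℝ} (hC1 : 0 < C1) (hC2 : 0 < C2) {R : ℝ}
    (hbox : ∀ α L : Sg k → ℝ, (∀ s, 0 ≤ L s) →
        {x : 𝓞 k | ∀ s : Sg k, α s ≤ s (x : k) ∧ s (x : k) ≤ α s + L s}.Finite ∧
        ({x : 𝓞 k | ∀ s : Sg k, α s ≤ s (x : k) ∧ s (x : k) ≤ α s + L s}.ncard : ℝ) ≤
          C1 * ∏ s, (L s + 1))
    (hbcn : ∀ a : 𝓞 k, a ≠ 0 →
      {b : 𝓞 k | ∀ s : Sg k, |s (b : k)| ≤ R * |s (a : k)|}.Finite ∧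
      ({b : 𝓞 k | ∀ s : Sg k, |s (b : k)| ≤ R * |s (a : k)|}.ncard : ℝ) ≤
        C2 * ∏ s : Sg k, |s (a : k)|)
    {cF X Y Y0 : ℝ} (hcF : 1 ≤ cF) (hX : 1 / 2 ≤ X) (hY : 0 < Y) (hY0 : Y ≤ Y0)
    (hA : 1 ≤ 16 * cF ^ 4 * (Y ^ 3 * X)) :
    (cell (k := k) cF R (X ^ 4) (Y ^ 2)).Finite ∧
      ((cell (k := k) cF R (X ^ 4) (Y ^ 2)).ncard : ℝ) ≤
        (C1 * (48 * cF ^ 4 * (Y ^ 3 * X)) ^ Fintype.card (Sg k)) *
        (C2 * (C1 * ((8 * cF ^ 2 + 32 * cF ^ 4 * Y0) * (Y ^ 2 * X ^ 2)) ^ Fintype.card (Sg k)) *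
        (2 ^ Fintype.card (Sg k) *
          (C1 * ((2 * cF ^ 4 + 2 * Y0 ^ 3) * (X / Y ^ 3)) ^ Fintype.card (Sg k)))) := by
  classical
  have hc0 : 0 < cF := lt_of_lt_of_le one_pos hcF
  have hX0 : 0 < X := lt_of_lt_of_le (by norm_num) hX
  have hY00 : 0 < Y0 := lt_of_lt_of_le hY hY0
  obtain ⟨n, hn⟩ : ∃ n : ℕ, n = Fintype.card (Sg k) := ⟨_, rfl⟩
  rw [← hn]
  obtain ⟨A, hAdef⟩ : ∃ A, A = 16 * cF ^ 4 * (Y ^ 3 * X) := ⟨_, rfl⟩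
  rw [← hAdef] at hA
  have hA0 : 0 < A := lt_of_lt_of_le one_pos hA
  obtain ⟨Pp, hPp⟩ : ∃ Pp, Pp = 4 * cF ^ 2 * (Y ^ 2 * X ^ 2) := ⟨_, rfl⟩
  have hPp0 : 0 < Pp := by rw [hPp]; positivity
  obtain ⟨K, hK⟩ : ∃ K, K = (8 * cF ^ 2 + 32 * cF ^ 4 * Y0) * (Y ^ 2 * X ^ 2) := ⟨_, rfl⟩
  have hK0 : 0 < K := by rw [hK]; positivity
  have hKA : 2 * Pp + A ≤ K := by
    have h1 : Y ≤ Y0 * (2 * X) := by nlinarith
    have h2 : Y ^ 3 * X ≤ 2 * Y0 * (Y ^ 2 * X ^ 2) := by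
      have h3 : 0 ≤ Y ^ 2 * X := by positivity
      calc Y ^ 3 * X = (Y ^ 2 * X) * Y := by ring
        _ ≤ (Y ^ 2 * X) * (Y0 * (2 * X)) := by gcongr
        _ = 2 * Y0 * (Y ^ 2 * X ^ 2) := by ring
    rw [hPp, hAdef, hK]
    have h4 : 16 * cF ^ 4 * (Y ^ 3 * X) ≤ 16 * cF ^ 4 * (2 * Y0 * (Y ^ 2 * X ^ 2)) := by gcongr
    nlinarith
  obtain ⟨l, hl⟩ : ∃ l, l = 2 * cF ^ 4 * (X / Y ^ 3) := ⟨_, rfl⟩
  have hl0 : 0 < l := by rw [hl]; positivity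
  have hl1 : l + 1 ≤ (2 * cF ^ 4 + 2 * Y0 ^ 3) * (X / Y ^ 3) := by
    have h1 : 1 ≤ 2 * Y0 ^ 3 * (X / Y ^ 3) := by
      rw [mul_div_assoc', le_div_iff₀ (by positivity), one_mul]
      have h2 : Y ^ 3 ≤ Y0 ^ 3 := by gcongr
      have h3 : 0 ≤ Y0 ^ 3 := by positivity
      nlinarith
    rw [hl, add_mul]
    linarith
  obtain ⟨Nd, hNd⟩ : ∃ Nd, Nd = 2 ^ n *
    (C1 * ((2 * cF ^ 4 + 2 * Y0 ^ 3) * (X / Y ^ 3)) ^ n) := ⟨_, rfl⟩
  have hNd0 : 0 < Nd := by rw [hNd]; positivity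
  rw [← hNd]
  obtain ⟨S, hS⟩ : ∃ S : Set (Q4 (𝓞 k)), S = cell (k := k) cF R (X ^ 4) (Y ^ 2) := ⟨_, rfl⟩
  have hb : ∀ v ∈ S, ∀ s : Sg k, _ := fun v hv s =>
    cell_bounds hrea hcF hX0 hY (hS ▸ hv : v ∈ cell (k := k) cF R (X ^ 4) (Y ^ 2)) s
  rw [← hS]
  -- the element `a`
  refine fib S (fun v => v 0)
    {x : 𝓞 k | ∀ s : Sg k, -A ≤ s (x : k) ∧ s (x : k) ≤ -A + 2 * A}
    (hbox (fun _ => -A) (fun _ => 2 * A) (fun _ => by positivity)).1 ?_ (by positivity) ?_ ?_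
  · refine (hbox (fun _ => -A) (fun _ => 2 * A) (fun _ => by positivity)).2.trans ?_
    rw [Finset.prod_const, Finset.card_univ, ← hn]
    have h1 : 48 * cF ^ 4 * (Y ^ 3 * X) = 3 * A := by rw [hAdef]; ring
    rw [h1]
    gcongr
    linarith
  · intro v hv s
    have h1 := (hb v hv s).2.2.2.2
    rw [← hAdef] at h1
    have h2 := abs_le.1 h1
    constructor
    · exact h2.1
    · linarith [h2.2]
  intro a ha
  by_cases ha0 : a = 0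
  · have he : {v | v ∈ S ∧ v 0 = a} = ∅ := by
      rw [Set.eq_empty_iff_forall_notMem]
      rintro v ⟨hv, h0⟩
      rw [hS] at hv
      exact hv.1 (h0.trans ha0)
    rw [he]
    exact ⟨Set.finite_empty, by rw [Set.ncard_empty]; push_cast; positivity⟩
  have hsa : ∀ s : Sg k, 0 < |s (a : k)| := by
    intro s
    rw [abs_pos]
    intro h
    apply ha0
    have h1 : (a : k) = 0 := (map_eq_zero s).1 h
    exact RingOfIntegers.coe_eq_zero_iff.1 h1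
  have hsA : ∀ s : Sg k, |s (a : k)| ≤ A := by
    intro s
    have h1 := ha s
    exact abs_le.2 ⟨h1.1, by linarith [h1.2]⟩
  have hprod : 0 < ∏ s : Sg k, |s (a : k)| := Finset.prod_pos fun s _ => hsa s
  -- the element `b`
  have hN : C2 * (C1 * K ^ n) * Nd =
      (C2 * ∏ s : Sg k, |s (a : k)|) * ((C1 * (K ^ n / ∏ s : Sg k, |s (a : k)|)) * Nd) := by
    field_simp
  rw [← hK, hN]
  refine fib {v | v ∈ S ∧ v 0 = a} (fun v => v 1)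
    {b : 𝓞 k | ∀ s : Sg k, |s (b : k)| ≤ R * |s (a : k)|}
    (hbcn a ha0).1 (hbcn a ha0).2 (by positivity) ?_ ?_
  · rintro v ⟨hv, h0⟩ s
    rw [hS] at hv
    have := hv.2.1 s
    rwa [h0] at this
  intro b hb1
  -- the element `c`
  have hL : ∀ s : Sg k, 0 ≤ 2 * Pp / |s (a : k)| := fun s =>
    div_nonneg (by positivity) (hsa s).le
  refine fib {v | (v ∈ S ∧ v 0 = a) ∧ v 1 = b} (fun v => v 2)
    {x : 𝓞 k | ∀ s : Sg k, (fun s : Sg k => s (b : k) ^ 2 / s (a : k) - Pp / |s (a : k)|) s ≤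
        s (x : k) ∧ s (x : k) ≤ (fun s : Sg k => s (b : k) ^ 2 / s (a : k) - Pp / |s (a : k)|) s +
          (fun s : Sg k => 2 * Pp / |s (a : k)|) s}
    (hbox _ _ hL).1 ?_ hNd0.le ?_ ?_
  · refine (hbox _ _ hL).2.trans ?_
    apply mul_le_mul_of_nonneg_left _ hC1.le
    have h1 : K ^ n / ∏ s : Sg k, |s (a : k)| = ∏ s : Sg k, K / |s (a : k)| := by
      rw [Finset.prod_div_distrib, Finset.prod_const, Finset.card_univ, ← hn]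
    rw [h1]
    refine Finset.prod_le_prod (fun s _ => by have := hL s; linarith) (fun s _ => ?_)
    have h2 := hsa s
    rw [div_add_one h2.ne']
    gcongr
    linarith [hsA s]
  · rintro v ⟨⟨hv, h0⟩, h1⟩ s
    have h2 := hb v hv s
    rw [h0, h1] at h2
    obtain ⟨-, hP0, -, hP2, -⟩ := h2
    rw [← hPp] at hP2
    have ha1 : s (a : k) ≠ 0 := abs_pos.1 (hsa s)
    have hc : s (v 2 : k) = s (b : k) ^ 2 / s (a : k) -
        fP (s (a : k)) (s (b : k)) (s (v 2 : k)) / s (a : k) := by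
      rw [fP]
      field_simp
      ring
    have habs : |fP (s (a : k)) (s (b : k)) (s (v 2 : k)) / s (a : k)| ≤ Pp / |s (a : k)| := by
      rw [abs_div, abs_of_pos hP0]
      gcongr
    have h3 := abs_le.1 habs
    have h4 : 2 * Pp / |s (a : k)| = Pp / |s (a : k)| + Pp / |s (a : k)| := by ring
    simp only
    rw [h4]
    constructor
    · rw [hc]; linarith [h3.2]
    · rw [hc]; linarith [h3.1]
  intro c hc1
  by_cases hne : {v | ((v ∈ S ∧ v 0 = a) ∧ v 1 = b) ∧ v 2 = c} = ∅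
  · have he : {v | v ∈ {v | (v ∈ S ∧ v 0 = a) ∧ v 1 = b} ∧ v 2 = c} = ∅ := hne
    rw [he]
    exact ⟨Set.finite_empty, by rw [Set.ncard_empty]; push_cast; exact hNd0.le⟩
  obtain ⟨v0, hv0⟩ := Set.nonempty_iff_ne_empty.2 hne
  obtain ⟨⟨⟨hv0S, hv00⟩, hv01⟩, hv02⟩ := hv0
  have hP : ∀ s : Sg k, 0 < fP (s (a : k)) (s (b : k)) (s (c : k)) ∧
      Y ^ 2 * X ^ 2 ≤ cF ^ 2 * fP (s (a : k)) (s (b : k)) (s (c : k)) := by
    intro s
    have h := hb v0 hv0S s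
    rw [hv00, hv01, hv02] at h
    exact ⟨h.2.1, h.2.2.1⟩
  have hy : 0 < 2 * cF * X ^ 4 := by positivity
  have hαβ : ∀ s : Sg k, ∃ α β : ℝ, ∀ d : ℝ, 0 < fM (s (a : k)) (s (b : k)) (s (c : k)) d →
      fM (s (a : k)) (s (b : k)) (s (c : k)) d ≤ 2 * cF * X ^ 4 →
      (α ≤ d ∧ d ≤ α + 2 * cF * X ^ 4 / fP (s (a : k)) (s (b : k)) (s (c : k)) ^ (3 / 2 : ℝ)) ∨
      (β ≤ d ∧ d ≤ β + 2 * cF * X ^ 4 / fP (s (a : k)) (s (b : k)) (s (c : k)) ^ (3 / 2 : ℝ)) :=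
    fun s => hrea.2 _ _ _ _ (abs_pos.1 (hsa s)) (hP s).1 hy
  choose α β hαβ using hαβ
  have hlen : ∀ s : Sg k,
      2 * cF * X ^ 4 / fP (s (a : k)) (s (b : k)) (s (c : k)) ^ (3 / 2 : ℝ) ≤ l := by
    intro s
    have h1 : (Y * X / cF) ^ 2 ≤ fP (s (a : k)) (s (b : k)) (s (c : k)) := by
      rw [div_pow, div_le_iff₀ (by positivity)]
      calc (Y * X) ^ 2 = Y ^ 2 * X ^ 2 := by ring
        _ ≤ cF ^ 2 * fP (s (a : k)) (s (b : k)) (s (c : k)) := (hP s).2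
        _ = fP (s (a : k)) (s (b : k)) (s (c : k)) * cF ^ 2 := by ring
    have h2 : (Y * X / cF) ^ 3 ≤ fP (s (a : k)) (s (b : k)) (s (c : k)) ^ (3 / 2 : ℝ) := by
      rw [← rpow_three_half (by positivity)]
      exact Real.rpow_le_rpow (by positivity) h1 (by norm_num)
    calc 2 * cF * X ^ 4 / fP (s (a : k)) (s (b : k)) (s (c : k)) ^ (3 / 2 : ℝ)
        ≤ 2 * cF * X ^ 4 / (Y * X / cF) ^ 3 := by gcongr
      _ = l := by rw [hl]; field_simp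
  have hcd := count_d (k := k) hbox hl0.le α β
  rw [← hn] at hcd
  have hN1 : Nd = Nd * 1 := (mul_one _).symm
  rw [hN1]
  refine fib {v | v ∈ {v | (v ∈ S ∧ v 0 = a) ∧ v 1 = b} ∧ v 2 = c} (fun v => v 3)
    {x : 𝓞 k | ∀ s : Sg k, (α s ≤ s (x : k) ∧ s (x : k) ≤ α s + l) ∨
      (β s ≤ s (x : k) ∧ s (x : k) ≤ β s + l)} hcd.1 ?_ zero_le_one ?_ ?_
  · refine hcd.2.trans ?_
    rw [hNd]
    gcongr
  · rintro v ⟨⟨⟨hv, h0⟩, h1⟩, h2⟩ s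
    have h3 := hb v hv s
    rw [hS] at hv
    have h4 := (hv.2.2.1 s).2
    rw [map_qM] at h4
    rw [h0, h1, h2] at h3 h4
    have h5 := hαβ s (s (v 3 : k)) h3.1 h4
    have h6 := hlen s
    rcases h5 with h5 | h5
    · exact Or.inl ⟨h5.1, by linarith [h5.2]⟩
    · exact Or.inr ⟨h5.1, by linarith [h5.2]⟩
  · intro d hd
    have hsub : {v | v ∈ {v | v ∈ {v | (v ∈ S ∧ v 0 = a) ∧ v 1 = b} ∧ v 2 = c} ∧ v 3 = d} ⊆
        {![a, b, c, d]} := by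
      rintro v ⟨⟨⟨⟨hv, h0⟩, h1⟩, h2⟩, h3⟩
      rw [Set.mem_singleton_iff]
      funext i
      fin_cases i
      · exact h0
      · exact h1
      · exact h2
      · exact h3
    refine ⟨(Set.finite_singleton _).subset hsub, ?_⟩
    have h1 := Set.ncard_le_ncard hsub (Set.finite_singleton _)
    rw [Set.ncard_singleton] at h1
    exact_mod_cast h1

end

theorem cel (hbox : BoxStmt) (hbcn : BcnStmt) (hrea : ReaStmt) (hnor : NorStmt) : CelStmt := by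
  intro k _ _ htr cF R ξ₀ hcF hR hξ₀
  obtain ⟨hcard, -, hint⟩ := hnor k htr
  obtain ⟨C1, hC1, hbox⟩ := hbox k htr
  obtain ⟨C2, hC2, hbcn⟩ := hbcn k htr R hR
  have hc0 : 0 < cF := lt_of_lt_of_le one_pos hcF
  obtain ⟨n, hn⟩ : ∃ n : ℕ, n = finrank ℚ k := ⟨_, rfl⟩
  have hn0 : 0 < n := by rw [hn]; exact finrank_pos
  obtain ⟨Y0, hY0⟩ : ∃ Y0, Y0 = Real.sqrt ξ₀ := ⟨_, rfl⟩
  have hY00 : 0 < Y0 := by rw [hY0]; exact Real.sqrt_pos.2 hξ₀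
  obtain ⟨C, hC⟩ : ∃ C, C = (C1 * (48 * cF ^ 4) ^ n) * (C2 * (C1 *
      (8 * cF ^ 2 + 32 * cF ^ 4 * Y0) ^ n) * (2 ^ n * (C1 * (2 * cF ^ 4 + 2 * Y0 ^ 3) ^ n))) :=
    ⟨_, rfl⟩
  have hC0 : 0 < C := by rw [hC]; positivity
  refine ⟨C + 16 * cF ^ 4, by positivity, ?_⟩
  intro M ξ hM hξ hξξ
  obtain ⟨X, hX⟩ : ∃ X, X = M ^ (1 / 4 : ℝ) := ⟨_, rfl⟩
  obtain ⟨Y, hY⟩ : ∃ Y, Y = Real.sqrt ξ := ⟨_, rfl⟩
  have hM0 : 0 < M := lt_of_lt_of_le (by norm_num) hM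
  have hX0 : 0 < X := by rw [hX]; positivity
  have hYp : 0 < Y := by rw [hY]; exact Real.sqrt_pos.2 hξ
  have hX4 : X ^ 4 = M := by
    rw [hX, ← Real.rpow_natCast, ← Real.rpow_mul hM0.le]
    norm_num
  have hY2 : Y ^ 2 = ξ := by rw [hY]; exact Real.sq_sqrt hξ.le
  have hYY : Y ≤ Y0 := by rw [hY, hY0]; exact Real.sqrt_le_sqrt hξξ
  have hX2 : 1 / 2 ≤ X := by
    by_contra h
    push Not at h
    have h1 : X ^ 4 < (1 / 2) ^ 4 := by gcongr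
    rw [hX4] at h1
    norm_num at h1
    linarith
  have hξ3 : ξ ^ (3 / 2 : ℝ) = Y ^ 3 := by rw [← hY2, rpow_three_half hYp.le]
  rw [← hX, hξ3, ← hX4, ← hY2, ← hn]
  rcases Set.eq_empty_or_nonempty (cell (k := k) cF R (X ^ 4) (Y ^ 2)) with he | hne
  · rw [he]
    refine ⟨Set.finite_empty, ?_, fun h => absurd h Set.not_nonempty_empty⟩
    rw [Set.ncard_empty]
    push_cast
    positivity
  have hA : 1 ≤ 16 * cF ^ 4 * (Y ^ 3 * X) := by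
    obtain ⟨v, hv⟩ := hne
    have h1 := (hint (v 0) hv.1).1
    have h2 : ∏ s : Sg k, |s (v 0 : k)| ≤ ∏ _s : Sg k, (16 * cF ^ 4 * (Y ^ 3 * X)) :=
      Finset.prod_le_prod (fun s _ => abs_nonneg _)
        (fun s _ => (cell_bounds hrea hcF hX0 hYp hv s).2.2.2.2)
    rw [Finset.prod_const, Finset.card_univ, hcard, ← hn] at h2
    by_contra h3
    push Not at h3
    have h4 : (16 * cF ^ 4 * (Y ^ 3 * X)) ^ n < 1 :=
      pow_lt_one₀ (by positivity) h3 hn0.ne'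
    linarith
  have hcore := cel_core (k := k) hrea hC1 hC2 hbox hbcn hcF hX2 hYp hYY hA
  rw [hcard, ← hn] at hcore
  refine ⟨hcore.1, ?_, fun _ => ?_⟩
  · refine hcore.2.trans ?_
    have h1 : (C1 * (48 * cF ^ 4 * (Y ^ 3 * X)) ^ n) *
        (C2 * (C1 * ((8 * cF ^ 2 + 32 * cF ^ 4 * Y0) * (Y ^ 2 * X ^ 2)) ^ n) *
        (2 ^ n * (C1 * ((2 * cF ^ 4 + 2 * Y0 ^ 3) * (X / Y ^ 3)) ^ n))) =
        C * (Y ^ 2) ^ n * (X ^ 4) ^ n := by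
      have h2 : (Y ^ 2) ^ n * (X ^ 4) ^ n = ((Y ^ 3 * X) * (Y ^ 2 * X ^ 2) * (X / Y ^ 3)) ^ n := by
        rw [← mul_pow]
        congr 1
        field_simp
      rw [mul_assoc C, h2, hC]
      simp only [mul_pow]
      ring
    rw [h1]
    have h3 : 0 ≤ (Y ^ 2) ^ n * (X ^ 4) ^ n := by positivity
    have h4 : 0 < 16 * cF ^ 4 := by positivity
    nlinarith
  · have h5 : 0 ≤ C * (Y ^ 3 * X) := by positivity
    linarith

end Pool.Agent.LeoK.H24
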