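import Pool.Agent.LeoK.CountStmts

/-!
Squad leok, module LTZ: volume of the fundamental domain of a lattice in `ℂⁿ`.
-/

set_option autoImplicit false

open Module MeasureTheory

namespace Pool.Agent.LeoK.H24

/-- The determinant of the real linear map `w ↦ Re w • w₁ + Im w • w₂`. -/
theorem det_two (w₁ w₂ : ℂ) (f : ℂ →ₗ[ℝ] ℂ)
    (hf : ∀ w : ℂ, f w = (w.re : ℂ) * w₁ + (w.im : ℂ) * w₂) :
    LinearMap.det f = (starRingEnd ℂ w₁ * w₂).im := by
  rw [← LinearMap.det_toMatrix Complex.basisOneI]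
  rw [Matrix.det_fin_two]
  simp only [LinearMap.toMatrix_apply, Complex.coe_basisOneI, Complex.coe_basisOneI_repr, hf]
  simp
  ring

/-- A real linear map `ℝ × ℝ → ℂ` with determinant `± 1` preserves the volume. -/
theorem mp_two (w₁ w₂ : ℂ) (h : |(starRingEnd ℂ w₁ * w₂).im| = 1) :
    MeasurePreserving (fun p : ℝ × ℝ => (p.1 : ℂ) * w₁ + (p.2 : ℂ) * w₂) := by
  obtain ⟨f, hf⟩ : ∃ f : ℂ →ₗ[ℝ] ℂ, ∀ w : ℂ, f w = (w.re : ℂ) * w₁ + (w.im : ℂ) * w₂ := by
    refine ⟨{ toFun := fun w => (w.re : ℂ) * w₁ + (w.im : ℂ) * w₂, map_add' := ?_, map_smul' := ?_ },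
      fun w => rfl⟩
    · intro x y
      simp only [Complex.add_re, Complex.add_im, Complex.ofReal_add]
      ring
    · intro c x
      simp only [Complex.real_smul, Complex.mul_re, Complex.ofReal_re, Complex.ofReal_im, zero_mul,
        sub_zero, Complex.mul_im, add_zero, RingHom.id_apply, Complex.ofReal_mul]
      ring
  have hdet : |LinearMap.det f| = 1 := by rw [det_two w₁ w₂ f hf, h]
  have hdet0 : LinearMap.det f ≠ 0 := by
    intro h0
    rw [h0, abs_zero] at hdet
    exact zero_ne_one hdet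
  have h1 : MeasurePreserving (fun w : ℂ => f w) volume volume := by
    refine ⟨(LinearMap.continuous_of_finiteDimensional f).measurable, ?_⟩
    have := Measure.map_linearMap_addHaar_eq_smul_addHaar (volume : Measure ℂ) hdet0
    rw [abs_inv, hdet, inv_one, ENNReal.ofReal_one, one_smul] at this
    exact this
  have h2 := h1.comp (Complex.volume_preserving_equiv_real_prod.symm)
  have h3 : (fun w : ℂ => f w) ∘ ⇑Complex.measurableEquivRealProd.symm =
      fun p : ℝ × ℝ => (p.1 : ℂ) * w₁ + (p.2 : ℂ) * w₂ := by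
    funext p
    simp [hf, Complex.measurableEquivRealProd]
  rw [h3] at h2
  exact h2

/-- The global map. -/
theorem mp_pi (σ : Type) [Fintype σ] (w₁ w₂ : σ → ℂ)
    (h : ∀ s, |(starRingEnd ℂ (w₁ s) * w₂ s).im| = 1) :
    MeasurePreserving (fun (p : (σ → ℝ) × (σ → ℝ)) (s : σ) =>
      (p.1 s : ℂ) * w₁ s + (p.2 s : ℂ) * w₂ s) := by
  have h1 := volume_preserving_pi (fun s => mp_two (w₁ s) (w₂ s) (h s))
  have h2 := (volume_measurePreserving_arrowProdEquivProdArrow ℝ ℝ σ).symm
  exact h1.comp h2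

theorem ltz : LtzStmt := by
  intro σ κ _ _ B z₁ z₂ hz
  classical
  have hd : ∀ s, (starRingEnd ℂ (z₁ s) * z₂ s).im ≠ 0 := by
    intro s h0
    have := hz s
    rw [h0, abs_zero] at this
    norm_num at this
  have him : ∀ s, (starRingEnd ℂ (z₁ s) * z₂ s).im = (z₁ s).re * (z₂ s).im - (z₁ s).im * (z₂ s).re := by
    intro s
    rw [Complex.mul_im, Complex.conj_re, Complex.conj_im]
    ring
  -- the linear equivalence
  obtain ⟨e, he⟩ : ∃ e : ((σ → ℝ) × (σ → ℝ)) ≃ₗ[ℝ] (σ → ℂ), ∀ p s,
      e p s = (p.1 s : ℂ) * z₁ s + (p.2 s : ℂ) * z₂ s := by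
    refine ⟨
      { toFun := fun p s => (p.1 s : ℂ) * z₁ s + (p.2 s : ℂ) * z₂ s
        map_add' := ?_
        map_smul' := ?_
        invFun := fun w => (fun s => -(starRingEnd ℂ (z₂ s) * w s).im /
            (starRingEnd ℂ (z₁ s) * z₂ s).im,
          fun s => (starRingEnd ℂ (z₁ s) * w s).im / (starRingEnd ℂ (z₁ s) * z₂ s).im)
        left_inv := ?_
        right_inv := ?_ }, fun p s => rfl⟩
    · intro p q
      funext s
      simp only [Prod.fst_add, Pi.add_apply, Complex.ofReal_add, Prod.snd_add]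
      ring
    · intro c p
      funext s
      simp only [Prod.smul_fst, Pi.smul_apply, smul_eq_mul, Complex.ofReal_mul, Prod.smul_snd,
        RingHom.id_apply, Complex.real_smul]
      ring
    · intro p
      ext s
      · simp only
        rw [div_eq_iff (hd s), him]
        simp only [Complex.mul_im, Complex.conj_re, Complex.conj_im, Complex.add_im, Complex.add_re,
          Complex.mul_re, Complex.ofReal_re, Complex.ofReal_im]
        ring
      · simp only
        rw [div_eq_iff (hd s), him]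
        simp only [Complex.mul_im, Complex.conj_re, Complex.conj_im, Complex.add_im, Complex.add_re,
          Complex.mul_re, Complex.ofReal_re, Complex.ofReal_im]
        ring
    · intro w
      funext s
      have h1 := hd s
      have h2 := him s
      simp only
      generalize (starRingEnd ℂ (z₁ s) * z₂ s).im = D at h1 h2 ⊢
      apply Complex.ext
      · simp only [Complex.mul_im, Complex.conj_re, Complex.conj_im, Complex.add_re,
          Complex.mul_re, Complex.ofReal_re, Complex.ofReal_im]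
        rw [zero_mul, zero_mul, sub_zero, sub_zero, div_mul_eq_mul_div, div_mul_eq_mul_div,
          ← add_div, div_eq_iff h1, h2]
        ring
      · simp only [Complex.mul_im, Complex.conj_re, Complex.conj_im, Complex.add_im,
          Complex.ofReal_re, Complex.ofReal_im]
        rw [zero_mul, zero_mul, add_zero, add_zero, div_mul_eq_mul_div, div_mul_eq_mul_div,
          ← add_div, div_eq_iff h1, h2]
        ring
  obtain ⟨b, hb⟩ : ∃ b : Basis (κ ⊕ κ) ℝ (σ → ℂ), b = (B.prod B).map e := ⟨_, rfl⟩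
  refine ⟨b, ?_, ?_, ?_⟩
  · intro i
    funext s
    rw [hb, Basis.map_apply, he]
    simp [Basis.prod_apply]
  · intro i
    funext s
    rw [hb, Basis.map_apply, he]
    simp [Basis.prod_apply]
  -- the volume
  obtain ⟨r, hr⟩ : ∃ r : ℝ, r = Real.sqrt 2 := ⟨_, rfl⟩
  have hr0 : 0 < r := by rw [hr]; positivity
  have hr2 : r ^ 2 = 2 := by rw [hr]; exact Real.sq_sqrt (by norm_num)
  have hmp := mp_pi σ (fun s => (r : ℂ) * z₁ s) (fun s => (r : ℂ) * z₂ s) (by
    intro s
    have h1 : (starRingEnd ℂ ((r : ℂ) * z₁ s) * ((r : ℂ) * z₂ s)).im =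
        r ^ 2 * (starRingEnd ℂ (z₁ s) * z₂ s).im := by
      rw [map_mul, Complex.conj_ofReal]
      have : (r : ℂ) * starRingEnd ℂ (z₁ s) * ((r : ℂ) * z₂ s) =
          ((r ^ 2 : ℝ) : ℂ) * (starRingEnd ℂ (z₁ s) * z₂ s) := by push_cast; ring
      rw [this, Complex.im_ofReal_mul]
    rw [h1, abs_mul, hz s, hr2]
    norm_num)
  obtain ⟨Ψ, hΨ⟩ : ∃ Ψ : (σ → ℝ) × (σ → ℝ) → σ → ℂ, Ψ = fun p s =>
      (p.1 s : ℂ) * ((r : ℂ) * z₁ s) + (p.2 s : ℂ) * ((r : ℂ) * z₂ s) := ⟨_, rfl⟩
  rw [← hΨ] at hmp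
  have hΨe : ∀ p, r⁻¹ • Ψ p = e p := by
    intro p
    funext s
    have hrc : (r : ℂ) ≠ 0 := by exact_mod_cast hr0.ne'
    rw [hΨ, Pi.smul_apply, he, Complex.real_smul, Complex.ofReal_inv]
    field_simp
  have hmeas : MeasurableSet (ZSpan.fundamentalDomain b) := ZSpan.fundamentalDomain_measurableSet b
  have hA : MeasurableSet ((fun w : σ → ℂ => r⁻¹ • w) ⁻¹' ZSpan.fundamentalDomain b) :=
    (measurable_const_smul r⁻¹) hmeas
  have h1 := hmp.measure_preimage hA.nullMeasurableSet
  have h2 : Ψ ⁻¹' ((fun w : σ → ℂ => r⁻¹ • w) ⁻¹' ZSpan.fundamentalDomain b) =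
      ZSpan.fundamentalDomain B ×ˢ ZSpan.fundamentalDomain B := by
    ext p
    rw [Set.mem_preimage, Set.mem_preimage, hΨe, Set.mem_prod, ZSpan.mem_fundamentalDomain,
      ZSpan.mem_fundamentalDomain, ZSpan.mem_fundamentalDomain, hb]
    have h3 : ∀ i, ((B.prod B).map e).repr (e p) i = (B.prod B).repr p i := by
      intro i
      rw [Basis.map_repr, LinearEquiv.trans_apply, LinearEquiv.symm_apply_apply]
    constructor
    · intro h
      exact ⟨fun i => by have := h (Sum.inl i); rwa [h3, Basis.prod_repr_inl] at this,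
        fun i => by have := h (Sum.inr i); rwa [h3, Basis.prod_repr_inr] at this⟩
    · rintro ⟨ha, hb'⟩ (i | i)
      · rw [h3, Basis.prod_repr_inl]; exact ha i
      · rw [h3, Basis.prod_repr_inr]; exact hb' i
  have h4 : (volume : Measure ((σ → ℝ) × (σ → ℝ))) (ZSpan.fundamentalDomain B ×ˢ
      ZSpan.fundamentalDomain B) = volume (ZSpan.fundamentalDomain B) *
      volume (ZSpan.fundamentalDomain B) := Measure.prod_prod _ _
  have h5 := Measure.addHaar_preimage_smul (volume : Measure (σ → ℂ)) (inv_ne_zero hr0.ne')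
    (ZSpan.fundamentalDomain b)
  have hfr : finrank ℝ (σ → ℂ) = 2 * Fintype.card σ := by
    rw [Module.finrank_pi_fintype]
    simp [Complex.finrank_real_complex, mul_comm]
  have h6 : |((r⁻¹) ^ finrank ℝ (σ → ℂ))⁻¹| = 2 ^ Fintype.card σ := by
    rw [hfr, inv_pow, inv_inv, pow_mul, hr2, abs_of_pos (by positivity)]
  rw [h2, h4, h5, h6] at h1
  have h7 := congrArg ENNReal.toReal h1
  rw [ENNReal.toReal_mul, ENNReal.toReal_mul, ENNReal.toReal_ofReal (by positivity)] at h7
  rw [eq_div_iff (by positivity)]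
  linarith

end Pool.Agent.LeoK.H24
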