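import Pool.Agent.LeoK.UpStmts

/-!
Squad leok, module SFT: soft upper bound for the number of lattice points.
-/

set_option autoImplicit false

open Module MeasureTheory Filter Topology

namespace Pool.Agent.LeoK.H24

theorem sft : SftStmt := by
  intro E _ _ _ _ _ μ _ ι _ b K hK ε hε
  obtain ⟨r, hr0, hr⟩ : ∃ r : ℝ, 0 < r ∧ ∀ d ∈ ZSpan.fundamentalDomain b, ‖d‖ ≤ r := by
    obtain ⟨r, hr⟩ := isBounded_iff_forall_norm_le.1 (ZSpan.fundamentalDomain_isBounded b)
    exact ⟨max r 1, lt_max_of_lt_right one_pos, fun d hd => (hr d hd).trans (le_max_left _ _)⟩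
  have hKfin : μ K ≠ ⊤ := hK.measure_lt_top.ne
  obtain ⟨δ, hδ0, hδ⟩ : ∃ δ : ℝ, 0 < δ ∧ μ (Metric.cthickening δ K) ≤ μ K + ENNReal.ofReal ε := by
    have h1 := tendsto_measure_cthickening_of_isCompact (μ := μ) hK
    have h2 : μ K < μ K + ENNReal.ofReal ε :=
      ENNReal.lt_add_right hKfin (by simpa using hε)
    have h3 := h1.eventually (gt_mem_nhds h2)
    obtain ⟨η, hη, h4⟩ := Metric.eventually_nhds_iff.1 h3
    refine ⟨η / 2, by positivity, (h4 ?_).le⟩
    rw [Real.dist_eq, sub_zero, abs_of_pos (by positivity)]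
    linarith
  have hDfin : μ (ZSpan.fundamentalDomain b) ≠ ⊤ :=
    (ZSpan.fundamentalDomain_isBounded b).measure_lt_top.ne
  refine ⟨max 1 (r / δ), lt_max_of_lt_left one_pos, ?_⟩
  intro t ht x₀
  have ht1 : 1 ≤ t := (le_max_left _ _).trans ht
  have ht0 : 0 < t := lt_of_lt_of_le one_pos ht1
  have htr : r / t ≤ δ := by
    have h1 : r / δ ≤ t := (le_max_right _ _).trans ht
    rw [div_le_iff₀ hδ0] at h1
    rw [div_le_iff₀ ht0]
    linarith
  obtain ⟨N, hN⟩ : ∃ N : Set E, N = {y : E | y ∈ Submodule.span ℤ (Set.range b) ∧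
      t⁻¹ • (x₀ + y) ∈ K} := ⟨_, rfl⟩
  rw [← hN]
  have hfin : N.Finite := by
    have h1 : Bornology.IsBounded ((fun z : E => t • z - x₀) '' K) :=
      (hK.image (by fun_prop)).isBounded
    refine (ZSpan.setFinite_inter b h1).subset ?_
    intro y hy
    rw [hN] at hy
    refine ⟨⟨t⁻¹ • (x₀ + y), hy.2, ?_⟩, hy.1⟩
    simp only
    rw [smul_inv_smul₀ ht0.ne']
    abel
  refine ⟨hfin, ?_⟩
  obtain ⟨A, hA⟩ : ∃ A : E → Set E, A = fun y =>
      (fun z : E => t • z) ⁻¹' ((fun w : E => w + (-(x₀ + y))) ⁻¹' ZSpan.fundamentalDomain b) :=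
    ⟨_, rfl⟩
  have hAm : ∀ y, MeasurableSet (A y) := by
    intro y
    rw [hA]
    exact (measurable_const_smul t)
      ((measurable_add_const _) (ZSpan.fundamentalDomain_measurableSet b))
  have hAμ : ∀ y, μ (A y) = ENNReal.ofReal ((t ^ finrank ℝ E)⁻¹) * μ (ZSpan.fundamentalDomain b) := by
    intro y
    rw [hA]
    simp only
    rw [Measure.addHaar_preimage_smul μ ht0.ne', measure_preimage_add_right,
      abs_of_pos (by positivity)]
  have hdis : Set.PairwiseDisjoint (hfin.toFinset : Set E) A := by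
    intro y hy y' hy' hne
    rw [Function.onFun, Set.disjoint_left]
    intro z hz hz'
    apply hne
    rw [hA] at hz hz'
    simp only [Set.mem_preimage] at hz hz'
    have hyN : y ∈ N := by simpa using hy
    have hyN' : y' ∈ N := by simpa using hy'
    rw [hN] at hyN hyN'
    obtain ⟨v, -, hv⟩ := ZSpan.exist_unique_vadd_mem_fundamentalDomain b (t • z - x₀)
    have h1 := hv ⟨-y, neg_mem hyN.1⟩ (by
      have : (⟨-y, neg_mem hyN.1⟩ : Submodule.span ℤ (Set.range b)) +ᵥ (t • z - x₀) =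
          t • z + -(x₀ + y) := by
        rw [Submodule.vadd_def, vadd_eq_add]
        simp only
        abel
      show _ +ᵥ (t • z - x₀) ∈ _
      rw [this]
      exact hz)
    have h2 := hv ⟨-y', neg_mem hyN'.1⟩ (by
      have : (⟨-y', neg_mem hyN'.1⟩ : Submodule.span ℤ (Set.range b)) +ᵥ (t • z - x₀) =
          t • z + -(x₀ + y') := by
        rw [Submodule.vadd_def, vadd_eq_add]
        simp only
        abel
      show _ +ᵥ (t • z - x₀) ∈ _
      rw [this]
      exact hz')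
    have h3 := congrArg Subtype.val (h1.trans h2.symm)
    simpa using h3
  have hsub : (⋃ y ∈ hfin.toFinset, A y) ⊆ Metric.cthickening δ K := by
    intro z hz
    simp only [Set.mem_iUnion, exists_prop] at hz
    obtain ⟨y, hy, hz⟩ := hz
    have hyN : y ∈ N := by simpa using hy
    rw [hN] at hyN
    rw [hA] at hz
    simp only [Set.mem_preimage] at hz
    have h1 := hr _ hz
    refine Metric.mem_cthickening_of_dist_le z _ δ K hyN.2 ?_
    have h2 : z - t⁻¹ • (x₀ + y) = t⁻¹ • (t • z + -(x₀ + y)) := by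
      rw [smul_add t⁻¹ (t • z), inv_smul_smul₀ ht0.ne', smul_neg]
      abel
    rw [dist_eq_norm, h2, norm_smul, norm_inv, Real.norm_eq_abs, abs_of_pos ht0]
    calc t⁻¹ * ‖t • z + -(x₀ + y)‖ ≤ t⁻¹ * r := by gcongr
      _ = r / t := by ring
      _ ≤ δ := htr
  have h1 : μ (⋃ y ∈ hfin.toFinset, A y) ≤ μ K + ENNReal.ofReal ε :=
    (measure_mono hsub).trans hδ
  rw [measure_biUnion_finset hdis (fun y _ => hAm y)] at h1
  simp only [hAμ, Finset.sum_const, nsmul_eq_mul] at h1
  have h2 := ENNReal.toReal_mono (ENNReal.add_ne_top.2 ⟨hKfin, ENNReal.ofReal_ne_top⟩) h1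
  rw [ENNReal.toReal_add hKfin ENNReal.ofReal_ne_top, ENNReal.toReal_ofReal hε.le,
    ENNReal.toReal_mul, ENNReal.toReal_mul, ENNReal.toReal_ofReal (by positivity),
    ENNReal.toReal_natCast, ← Set.ncard_eq_toFinset_card N hfin] at h2
  have h3 : 0 < t ^ finrank ℝ E := by positivity
  calc (N.ncard : ℝ) * (μ (ZSpan.fundamentalDomain b)).toReal
      = ((N.ncard : ℝ) * ((t ^ finrank ℝ E)⁻¹ * (μ (ZSpan.fundamentalDomain b)).toReal)) *
        t ^ finrank ℝ E := by field_simp
    _ ≤ ((μ K).toReal + ε) * t ^ finrank ℝ E := mul_le_mul_of_nonneg_right h2 h3.le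

end Pool.Agent.LeoK.H24
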